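import Pool.Agent.Lib.MP_975cd4_lc.Proof

open Pool.Agent.Lib.MP_975cd4_lc

theorem Pool.Agent.Results.MP_975cd4_lc.StronglyNPHard.result :
    ∀ L ∈ N68a2faeb.NP, ∃ g : List Bool → Inst × ℚ, N68a2faeb.IsPolyTime g ∧ ∀ x,
      Restricted (g x).1 ∧ (g x).1.1.length = 2 ∧ Small (g x) ∧ (L x = true ↔ Yes (g x)) :=
  main
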